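import Pool.Agent.helper55.FLD.Spec

namespace Pool.Agent.FLD

open Matrix Topology Filter Pool.Agent.GO Pool.Agent.AR

theorem IR_map_conj {F Ω : Type} [Field F] [Field Ω] [Algebra F Ω]
    (A B C : Matrix (Fin 2) (Fin 2) F) :
    (A * B * C).map (algebraMap F Ω) =
      A.map (algebraMap F Ω) * B.map (algebraMap F Ω) * C.map (algebraMap F Ω) := by
  rw [Matrix.map_mul, Matrix.map_mul]

theorem IR_trace_map {F Ω : Type} [Field F] [Field Ω] [Algebra F Ω]
    (Y : Matrix (Fin 2) (Fin 2) F) (h : Y.trace = 0) : (Y.map (algebraMap F Ω)).trace = 0 := by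
  rw [Matrix.trace_fin_two] at h ⊢
  simp only [Matrix.map_apply]
  rw [← map_add, h, map_zero]

theorem IR_co_map {F Ω : Type} [Field F] [Field Ω] [Algebra F Ω]
    (Y : Matrix (Fin 2) (Fin 2) F) (i : Fin 3) :
    co (Y.map (algebraMap F Ω)) i = algebraMap F Ω (co Y i) := by
  fin_cases i <;> simp [co]

theorem IR : IR_stmt := by
  intro F Ω _ _ _ _ _ G _ ρ hSI H hH N hN htr hst Y₀ hY₀
  have hinj : Function.Injective (algebraMap F Ω) := (algebraMap F Ω).injective
  have hcz : CharZero Ω := charZero_of_injective_algebraMap hinj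
  set ρ' : G →* Matrix (Fin 2) (Fin 2) Ω :=
    ((algebraMap F Ω).mapMatrix : Matrix (Fin 2) (Fin 2) F →+* _).toMonoidHom.comp ρ with hρ'
  have hρ'a : ∀ g, ρ' g = (ρ g).map (algebraMap F Ω) := fun g => rfl
  have hirr := ad0_irred (ρ'.comp H.subtype) (SI.restrict ρ' hSI H hH)
  set N' : Submodule Ω (Fin 3 → Ω) :=
    Submodule.span Ω {x | ∃ Y ∈ N, x = co (Y.map (algebraMap F Ω))} with hN'
  have hstab : ∀ g : H, ∀ u ∈ N', ad0 (ρ'.comp H.subtype) g *ᵥ u ∈ N' := by
    intro g u hu
    induction hu using Submodule.span_induction with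
    | mem x hx =>
      obtain ⟨Y, hY, rfl⟩ := hx
      refine Submodule.subset_span ⟨ρ g * Y * ρ (g : G)⁻¹, hst g g.2 Y hY, ?_⟩
      rw [ad0_apply, adm_mulVec, em_co (IR_trace_map Y (htr Y hY)), IR_map_conj]
      rfl
    | zero => rw [Matrix.mulVec_zero]; exact N'.zero_mem
    | add x y _ _ hx hy => rw [Matrix.mulVec_add]; exact N'.add_mem hx hy
    | smul c x _ hx => rw [Matrix.mulVec_smul]; exact N'.smul_mem c hx
  have htop : N' = ⊤ := by
    rcases hirr.2 N' hstab with h | h
    · exfalso
      obtain ⟨Y, hY, hY0⟩ := Submodule.exists_mem_ne_zero_of_ne_bot hN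
      have h1 : co (Y.map (algebraMap F Ω)) ∈ N' := Submodule.subset_span ⟨Y, hY, rfl⟩
      rw [h, Submodule.mem_bot] at h1
      apply hY0
      have h2 : co Y = 0 := by
        ext i
        have h3 := congrFun h1 i
        rw [IR_co_map] at h3
        exact hinj (by rw [h3, Pi.zero_apply, Pi.zero_apply, map_zero])
      rw [← em_co (htr Y hY), h2]
      have h4 := em_smul (0 : F) (0 : Fin 3 → F)
      rw [zero_smul, zero_smul] at h4
      exact h4
    · exact h
  let emL : (Fin 3 → F) →ₗ[F] Matrix (Fin 2) (Fin 2) F :=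
    { toFun := em
      map_add' := em_add
      map_smul' := em_smul }
  have hemL : ∀ x, emL x = em x := fun x => rfl
  by_contra hcon
  have hlt : N.comap emL < ⊤ := by
    rw [lt_top_iff_ne_top]
    intro h
    apply hcon
    have h1 : co Y₀ ∈ N.comap emL := by rw [h]; trivial
    rw [Submodule.mem_comap, hemL, em_co hY₀] at h1
    exact h1
  obtain ⟨f, hf0, hf⟩ := Submodule.exists_le_ker_of_lt_top _ hlt
  let f' : (Fin 3 → Ω) →ₗ[Ω] Ω :=
    { toFun := fun x => ∑ i, algebraMap F Ω (f (Pi.single i 1)) * x i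
      map_add' := by
        intro x y
        simp only [Pi.add_apply, mul_add, Finset.sum_add_distrib]
      map_smul' := by
        intro c x
        simp only [Pi.smul_apply, smul_eq_mul, RingHom.id_apply, Finset.mul_sum]
        exact Finset.sum_congr rfl fun i _ => by ring }
  have hf'a : ∀ x, f' x = ∑ i, algebraMap F Ω (f (Pi.single i 1)) * x i := fun x => rfl
  have hfsum : ∀ x : Fin 3 → F, f x = ∑ i, f (Pi.single i 1) * x i := by
    intro x
    have h1 : x = ∑ i, x i • (Pi.single i 1 : Fin 3 → F) := by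
      ext j
      rw [Finset.sum_apply]
      simp [Pi.single_apply]
    conv_lhs => rw [h1]
    rw [map_sum]
    refine Finset.sum_congr rfl fun i _ => ?_
    rw [map_smul, smul_eq_mul, mul_comm]
  have hle : N' ≤ LinearMap.ker f' := by
    rw [hN', Submodule.span_le]
    rintro x ⟨Y, hY, rfl⟩
    show f' _ = 0
    rw [hf'a]
    have h1 : f (co Y) = 0 := by
      have h2 : co Y ∈ N.comap emL := by
        rw [Submodule.mem_comap, hemL, em_co (htr Y hY)]
        exact hY
      exact LinearMap.mem_ker.1 (hf h2)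
    have h3 : ∑ i, algebraMap F Ω (f (Pi.single i 1)) * co (Y.map (algebraMap F Ω)) i =
        algebraMap F Ω (f (co Y)) := by
      rw [hfsum, map_sum]
      refine Finset.sum_congr rfl fun i _ => ?_
      rw [IR_co_map, map_mul]
    rw [h3, h1, map_zero]
  apply hf0
  have hzero : ∀ i : Fin 3, f (Pi.single i 1) = 0 := by
    intro i
    have h1 : (Pi.single i 1 : Fin 3 → Ω) ∈ LinearMap.ker f' := hle (by rw [htop]; trivial)
    have h2 : f' (Pi.single i 1) = 0 := LinearMap.mem_ker.1 h1
    rw [hf'a, Finset.sum_eq_single i] at h2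
    · rw [Pi.single_eq_same, mul_one] at h2
      exact hinj (by rw [h2, map_zero])
    · intro j _ hj
      rw [Pi.single_eq_of_ne hj, mul_zero]
    · intro h
      exact absurd (Finset.mem_univ i) h
  ext i
  simp [hzero i]

end Pool.Agent.FLD
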